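import Pool.Agent.X84.Sl.Disc

/-!
# Slices of compact sets: the main estimate
-/

set_option autoImplicit false

open Finset MeasureTheory
open scoped Classical ENNReal NNReal

namespace Pool.Agent.X84.Sl
open Pool.Agent.W605.HD Pool.Agent.W46.HD Pool.Agent.Y254HK

/-- the final numerical contradiction -/
theorem numericS {c C g α ρ η ε κ L x1 x2 A N S l : ℝ} {d k : ℕ} (hc : 0 ≤ c) (hC : 0 ≤ C)
    (hg : g = d - c * α) (hη : η = g * Real.log 2 / (4 * (2 + C))) (hε : ε = g / 4)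
    (hκ : (1 + C) * κ ≤ g / 4) (hρ : ρ = Real.exp (-η)) (hx1 : 0 < x1) (hx2 : 0 < x2)
    (hA : 0 < A)
    (hl : l = x2 * ρ ^ k / (2 * (A * ((1 / 2 : ℝ) ^ k) ^ (1 - κ)) * (2 : ℝ) ^ k))
    (hL : L = c * (d * Real.log 7 + α * Real.log 2) + C + (1 + C) * (Real.log (2 * A) - Real.log x2)
      - Real.log x1)
    (hk : L < g / 4 * Real.log 2 * k)
    (hN : l * (x1 * ρ ^ k) * ((2 : ℝ) ^ k) ^ d ≤ N)
    (hS1 : 1 ≤ S) (hS : S ≤ (2 : ℝ) ^ k * (7 ^ d * (2 : ℝ) ^ (α * (k + 1))))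
    (hD : Real.log N ≤ c * Real.log (S / ((2 ^ k : ℕ) : ℝ)) +
      ε * Real.log ((2 ^ k : ℕ) : ℝ) + C * (1 + Real.log (1 / l))) : False := by
  have hρ0 : 0 < ρ := by rw [hρ]; exact Real.exp_pos _
  have hl0 : 0 < l := by rw [hl]; positivity
  have hlog2 : 0 < Real.log 2 := Real.log_pos (by norm_num)
  have hlρ : Real.log (ρ ^ k) = -(k * η) := by
    rw [Real.log_pow, hρ, Real.log_exp]; ring
  have hll : Real.log l = Real.log x2 - Real.log (2 * A) - k * η - κ * (k * Real.log 2) := by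
    rw [hl, Real.log_div (by positivity) (by positivity), Real.log_mul hx2.ne' (by positivity), hlρ,
      Real.log_mul (by positivity) (by positivity), ← mul_assoc, Real.log_mul (by positivity)
        (by positivity), Real.log_rpow (by positivity), Real.log_pow, Real.log_pow, one_div,
      Real.log_inv]
    ring
  have h1 : Real.log l + (Real.log x1 - k * η) + d * (k * Real.log 2) ≤ Real.log N := by
    have h2 := Real.log_le_log (by positivity) hN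
    rw [Real.log_mul (by positivity) (by positivity), Real.log_mul hl0.ne' (by positivity),
      Real.log_mul hx1.ne' (by positivity), hlρ, Real.log_pow, Real.log_pow] at h2
    linarith
  have hlk : Real.log ((2 ^ k : ℕ) : ℝ) = k * Real.log 2 := by
    push_cast
    rw [Real.log_pow]
  have h2 : Real.log (S / ((2 ^ k : ℕ) : ℝ)) ≤ d * Real.log 7 + α * (k + 1) * Real.log 2 := by
    rw [Real.log_div (by linarith) (by positivity), hlk]
    have h3 := Real.log_le_log (by linarith) hS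
    rw [Real.log_mul (by positivity) (by positivity), Real.log_mul (by positivity) (by positivity),
      Real.log_pow, Real.log_pow, Real.log_rpow (by norm_num)] at h3
    linarith
  have h3 : Real.log (1 / l) = -Real.log l := by rw [one_div, Real.log_inv]
  rw [h3, hlk] at hD
  have h4 : c * Real.log (S / ((2 ^ k : ℕ) : ℝ)) ≤
      c * (d * Real.log 7 + α * (k + 1) * Real.log 2) := mul_le_mul_of_nonneg_left h2 hc
  have h5 : (2 + C) * η = g * Real.log 2 / 4 := by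
    rw [hη]
    have : (2 + C) ≠ 0 := by linarith
    field_simp
  have hk0 : 0 ≤ (k : ℝ) * Real.log 2 := by positivity
  have h6 : (1 + C) * κ * (k * Real.log 2) ≤ g / 4 * (k * Real.log 2) :=
    mul_le_mul_of_nonneg_right hκ hk0
  have h7 : g * (k * Real.log 2) ≤ L + k * ((2 + C) * η) + ε * (k * Real.log 2) +
      (1 + C) * κ * (k * Real.log 2) := by
    rw [hL, hg]
    rw [hll] at h1 hD
    nlinarith
  rw [h5, hε] at h7
  nlinarith

/-- The main estimate: for every measure of dimension at least `γ` on the heights, almost all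
slices have dimension at least `α`. -/
theorem core (d : ℕ) (c : ℝ) (hc : 0 ≤ c) (α : ℝ≥0) (hg0 : 0 < (d : ℝ) - c * α)
    (hD : DenseG d c) : ∃ γ : ℝ, 0 < γ ∧ γ < 1 ∧
    ∀ (K : Set (EuclideanSpace ℝ (Fin (d + 1)))), IsCompact K → ∀ (h0 y : ℝ), y ≤ 1 →
    ∀ (V : Set (Fin d → ℝ)) (B : (Fin d → ℝ) → Fin d → ℝ), (∀ v ∈ V, ∀ i, 0 ≤ v i ∧ v i ≤ 1) →
    volume V ≠ 0 →
    (∀ v ∈ V, ∀ τ : ℝ, 0 ≤ τ → τ < y → pt d (h0 + τ) (fun i => B v i + τ * v i) ∈ K) →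
    ∀ (μ : Measure ℝ) (A : ℝ), (∀ x r : ℝ, 0 < r → r ≤ 1 →
      μ (Metric.closedBall x r) ≤ ENNReal.ofReal (A * r ^ γ)) →
    μ {τ | (0 ≤ τ ∧ τ < y) ∧ dimH (SL K (h0 + τ)) < α} = 0 := by
  obtain ⟨g, hg⟩ : ∃ g : ℝ, g = d - c * α := ⟨_, rfl⟩
  have hgpos : 0 < g := by rw [hg]; exact hg0
  obtain ⟨ε, hε⟩ : ∃ ε : ℝ, ε = g / 4 := ⟨_, rfl⟩
  obtain ⟨C, hC0, hC⟩ := hD ε (by rw [hε]; positivity)
  obtain ⟨κ, hκ⟩ : ∃ κ : ℝ, κ = min (1 / 2) (g / (4 * (1 + C))) := ⟨_, rfl⟩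
  have hκ0 : 0 < κ := by rw [hκ]; positivity
  have hκ1 : κ ≤ 1 / 2 := by rw [hκ]; exact min_le_left _ _
  have hκ2 : (1 + C) * κ ≤ g / 4 := by
    have h1 : κ ≤ g / (4 * (1 + C)) := by rw [hκ]; exact min_le_right _ _
    have h2 : (1 + C) * (g / (4 * (1 + C))) = g / 4 := by
      have : (1 + C) ≠ 0 := by linarith
      field_simp
    rw [← h2]
    exact mul_le_mul_of_nonneg_left h1 (by linarith)
  refine ⟨1 - κ, by linarith, by linarith, ?_⟩
  intro K hK h0 y hy1 V B hV01 hVpos hVK μ A0 hA0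
  by_contra hT
  obtain ⟨A, hA⟩ : ∃ A : ℝ, A = max A0 1 := ⟨_, rfl⟩
  have hApos : 0 < A := by rw [hA]; positivity
  have hAμ : ∀ x r : ℝ, 0 < r → r ≤ 1 →
      μ (Metric.closedBall x r) ≤ ENNReal.ofReal (A * r ^ (1 - κ)) := by
    intro x r hr hr1
    refine (hA0 x r hr hr1).trans (ENNReal.ofReal_le_ofReal ?_)
    refine mul_le_mul_of_nonneg_right ?_ (by positivity)
    rw [hA]
    exact le_max_left _ _
  obtain ⟨T, hTdef⟩ : ∃ T : Set ℝ, T = {τ | (0 ≤ τ ∧ τ < y) ∧ dimH (SL K (h0 + τ)) < α} :=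
    ⟨_, rfl⟩
  rw [← hTdef] at hT
  have hTfin : μ T ≠ ⊤ := by
    refine ne_top_of_le_ne_top ENNReal.ofReal_ne_top
      ((measure_mono ?_).trans (hAμ 0 1 one_pos le_rfl))
    intro τ hτ
    rw [hTdef] at hτ
    rw [Metric.mem_closedBall, Real.dist_eq, sub_zero, abs_of_nonneg hτ.1.1]
    linarith [hτ.1.2]
  have hlog2 : 0 < Real.log 2 := Real.log_pos (by norm_num)
  obtain ⟨η, hη⟩ : ∃ η : ℝ, η = g * Real.log 2 / (4 * (2 + C)) := ⟨_, rfl⟩
  have hη0 : 0 < η := by rw [hη]; positivity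
  obtain ⟨ρ, hρ⟩ : ∃ ρ : ℝ, ρ = Real.exp (-η) := ⟨_, rfl⟩
  have hρ0 : 0 < ρ := by rw [hρ]; exact Real.exp_pos _
  have hρ1 : ρ < 1 := by
    rw [hρ, Real.exp_lt_one_iff]
    linarith
  have hVfin : volume V ≠ ⊤ := by
    have h1 : V ⊆ Set.Icc (0 : Fin d → ℝ) 1 := fun v hv =>
      ⟨fun i => (hV01 v hv i).1, fun i => (hV01 v hv i).2⟩
    refine ne_top_of_le_ne_top ?_ (measure_mono h1)
    rw [Real.volume_Icc_pi]
    simp
  obtain ⟨y1, hy1'⟩ : ∃ y : ℝ, y = (volume V).toReal := ⟨_, rfl⟩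
  have hy1pos : 0 < y1 := by rw [hy1']; exact ENNReal.toReal_pos hVpos hVfin
  have hy1V : ENNReal.ofReal y1 ≤ volume V := by rw [hy1']; exact ENNReal.ofReal_toReal_le
  obtain ⟨y2, hy2⟩ : ∃ y : ℝ, y = (μ T).toReal := ⟨_, rfl⟩
  have hy2pos : 0 < y2 := by rw [hy2]; exact ENNReal.toReal_pos hT hTfin
  have hy2T : ENNReal.ofReal y2 ≤ μ T := by rw [hy2]; exact ENNReal.ofReal_toReal_le
  have h1ρ : 0 < 1 - ρ := by linarith
  obtain ⟨x1, hx1⟩ : ∃ x : ℝ, x = y1 * (1 - ρ) / 2 := ⟨_, rfl⟩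
  obtain ⟨x2, hx2⟩ : ∃ x : ℝ, x = y2 * (1 - ρ) / 2 := ⟨_, rfl⟩
  have hx1pos : 0 < x1 := by rw [hx1]; positivity
  have hx2pos : 0 < x2 := by rw [hx2]; positivity
  obtain ⟨L, hL⟩ : ∃ L : ℝ, L = c * (d * Real.log 7 + α * Real.log 2) + C +
    (1 + C) * (Real.log (2 * A) - Real.log x2) - Real.log x1 := ⟨_, rfl⟩
  obtain ⟨k0, hk0⟩ : ∃ k0 : ℕ, L < g / 4 * Real.log 2 * k0 := by
    have hpos : 0 < g / 4 * Real.log 2 := by positivity
    obtain ⟨m, hm⟩ := exists_nat_gt (L / (g / 4 * Real.log 2))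
    refine ⟨m, ?_⟩
    rw [div_lt_iff₀ hpos] at hm
    linarith
  obtain ⟨G, f, hGm, hGdisj, hGJ, hGadm, hGcov, hGT⟩ := choice hK h0 α k0 (Set.Ico 0 y)
    measurableSet_Ico
  let E : ℕ → (Fin d → ℝ) → Set ℝ := fun k v => ⋃ m, G m ∩ {τ | ∃ p ∈ f m, p.2 = k ∧
    dist (pt d (h0 + τ) (fun i => B v i + τ * v i)) (ctr d p.1) < 2 * (1 / 2 : ℝ) ^ k}
  have hcont : ∀ v : Fin d → ℝ, Continuous fun τ : ℝ => pt d (h0 + τ) (fun i => B v i + τ * v i) := by
    intro v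
    refine (PiLp.continuous_toLp 2 _).comp ?_
    refine continuous_pi fun l => ?_
    refine Fin.cases ?_ (fun i => ?_) l
    · simp only [Fin.cons_zero]
      fun_prop
    · simp only [Fin.cons_succ]
      fun_prop
  have hEm : ∀ k v, MeasurableSet (E k v) := by
    intro k v
    refine MeasurableSet.iUnion fun m => (hGm m).inter ?_
    have h1 : {τ : ℝ | ∃ p ∈ f m, p.2 = k ∧
        dist (pt d (h0 + τ) (fun i => B v i + τ * v i)) (ctr d p.1) < 2 * (1 / 2 : ℝ) ^ k} =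
        ⋃ p ∈ (f m).filter (fun p => p.2 = k), {τ : ℝ |
          dist (pt d (h0 + τ) (fun i => B v i + τ * v i)) (ctr d p.1) < 2 * (1 / 2 : ℝ) ^ k} := by
      ext τ
      simp only [Set.mem_iUnion, Set.mem_ofPred_eq, Finset.mem_filter, exists_prop, and_assoc]
    rw [h1]
    refine (isOpen_biUnion fun p _ => ?_).measurableSet
    exact isOpen_lt ((hcont v).dist continuous_const) continuous_const
  have hcovE : ∀ v ∈ V, (⋃ m, G m) ⊆ ⋃ k, E k v := by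
    intro v hv τ hτ
    obtain ⟨m, hm⟩ := Set.mem_iUnion.1 hτ
    have h1 := hGJ m hm
    have h2 : pt d (h0 + τ) (fun i => B v i + τ * v i) ∈ SL K (h0 + τ) :=
      ⟨hVK v hv τ h1.1 h1.2, rfl⟩
    obtain ⟨p, hp, hpd⟩ := hGcov m τ hm h2
    exact Set.mem_iUnion.2 ⟨p.2, Set.mem_iUnion.2 ⟨m, hm, p, hp, rfl, hpd⟩⟩
  have hTG : T ⊆ ⋃ m, G m := by
    intro τ hτ
    rw [hTdef] at hτ
    exact Set.mem_iUnion.2 (hGT τ ⟨hτ.1.1, hτ.1.2⟩ hτ.2)
  obtain ⟨k, hk⟩ := pigeon volume V (fun k => {v | v ∈ V ∧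
    ENNReal.ofReal (x2 * ρ ^ k) ≤ μ (E k v)}) (by
      intro v hv
      obtain ⟨k, hk⟩ := pigeon μ (⋃ m, G m) (fun k => E k v) (hcovE v hv) y2 ρ
        hy2pos hρ0 hρ1 (hy2T.trans (measure_mono hTG))
      rw [← hx2] at hk
      exact Set.mem_iUnion.2 ⟨k, hv, hk⟩) y1 ρ hy1pos hρ0 hρ1 hy1V
  rw [← hx1] at hk
  have hx1k : 0 < x1 * ρ ^ k := by positivity
  have hx2k : 0 < x2 * ρ ^ k := by positivity
  -- `k0 ≤ k`
  have hkk0 : k0 ≤ k := by
    have hne : ({v | v ∈ V ∧ ENNReal.ofReal (x2 * ρ ^ k) ≤ μ (E k v)} :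
        Set (Fin d → ℝ)).Nonempty := by
      apply nonempty_of_measure_ne_zero (μ := volume)
      intro h
      rw [h, nonpos_iff_eq_zero, ENNReal.ofReal_eq_zero] at hk
      linarith
    obtain ⟨v, hv, hvE⟩ := hne
    have hne2 : (E k v).Nonempty := by
      apply nonempty_of_measure_ne_zero (μ := μ)
      intro h
      rw [h, nonpos_iff_eq_zero, ENNReal.ofReal_eq_zero] at hvE
      linarith
    obtain ⟨τ, hτ⟩ := hne2
    obtain ⟨m, hm, p, hp, hpk, -⟩ := Set.mem_iUnion.1 hτ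
    rw [← hpk]
    exact (hGadm m ⟨τ, hm⟩).1 p hp
  obtain ⟨l, hl⟩ : ∃ l : ℝ, l = x2 * ρ ^ k / (2 * (A * ((1 / 2 : ℝ) ^ k) ^ (1 - κ)) * (2 : ℝ) ^ k) :=
    ⟨_, rfl⟩
  have hl0 : 0 < l := by rw [hl]; positivity
  obtain ⟨Ω, _, _, A', D, F, hfam, hF, hcard, hS1, hS2⟩ := discrete2 d k
    {v | v ∈ V ∧ ENNReal.ofReal (x2 * ρ ^ k) ≤ μ (E k v)} (fun v hv => hV01 v hv.1) B μ
    (E k) (fun v _ => hEm k v) (fun v _ τ hτ => by
      obtain ⟨m, hm, -⟩ := Set.mem_iUnion.1 hτ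
      have h1 := hGJ m hm
      exact ⟨h1.1, lt_of_lt_of_le h1.2 hy1⟩) ((2 : ℝ) ^ ((α : ℝ) * (k + 1))) (by
      intro τ
      by_cases hτ : ∃ m, τ ∈ G m
      · obtain ⟨m, hm⟩ := hτ
        refine ⟨((f m).filter fun p => p.2 = k).image fun p i => ctr d p.1 (Fin.succ i), ?_, ?_⟩
        · refine le_trans ?_ ((hGadm m ⟨τ, hm⟩).2 k)
          exact_mod_cast Finset.card_image_le
        · intro v _ hv
          obtain ⟨m', hm', p, hp, hpk, hpd⟩ := Set.mem_iUnion.1 hv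
          obtain rfl := hGdisj m' m τ hm' hm
          refine ⟨fun i => ctr d p.1 (Fin.succ i), Finset.mem_image.2 ⟨p,
            Finset.mem_filter.2 ⟨hp, hpk⟩, rfl⟩, fun i => ?_⟩
          have h1 := coord_dist (pt d (h0 + τ) (fun i => B v i + τ * v i)) (ctr d p.1) (Fin.succ i)
          rw [pt_succ] at h1
          exact h1.trans hpd.le
      · refine ⟨∅, by simp only [Finset.card_empty, Nat.cast_zero]; positivity, ?_⟩
        intro v _ hv
        obtain ⟨m', hm', -⟩ := Set.mem_iUnion.1 hv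
        exact absurd ⟨m', hm'⟩ hτ) (A * ((1 / 2 : ℝ) ^ k) ^ (1 - κ)) (x1 * ρ ^ k) (x2 * ρ ^ k) l
    (by positivity) hx1k hx2k (by
      intro j
      have h1 : (0 : ℝ) < (1 / 2 : ℝ) ^ k := by positivity
      have h2 : (1 / 2 : ℝ) ^ k ≤ 1 := pow_le_one₀ (by norm_num) (by norm_num)
      refine (measure_mono ?_).trans (hAμ ((j : ℝ) / (2 : ℝ) ^ k) ((1 / 2 : ℝ) ^ k) h1 h2)
      intro τ hτ
      rw [Metric.mem_closedBall, Real.dist_eq, abs_of_nonneg (by linarith [hτ.1])]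
      have h3 : ((j : ℝ) + 1) / (2 : ℝ) ^ k = (j : ℝ) / (2 : ℝ) ^ k + (1 / 2 : ℝ) ^ k := by
        rw [one_div, inv_pow]
        field_simp
      have h4 := hτ.2
      rw [h3] at h4
      linarith) hk
    (fun v hv => hv.2) hl
  have hDk := hC (2 ^ k) Ω A' D hfam F l hl0 hF
  refine numericS hc hC0 hg hη hε hκ2 hρ hx1pos hx2pos hApos hl hL ?_ hcard hS1 hS2 hDk
  refine hk0.trans_le (mul_le_mul_of_nonneg_left ?_ (by positivity))
  exact_mod_cast hkk0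

end Pool.Agent.X84.Sl
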