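import Pool.Agent.X84.Sl.Fam

/-!
# Slices of compact sets: discretization, one height in each cell
-/

set_option autoImplicit false

open Finset MeasureTheory
open scoped Classical ENNReal NNReal

namespace Pool.Agent.X84.Sl
open Pool.Agent.W605.HD Pool.Agent.W46.HD

/-- a good height in a cell -/
theorem pick_height {Ω : Type} [Fintype Ω] (μ : Measure ℝ) (E : Ω → Set ℝ)
    (hE : ∀ ω, MeasurableSet (E ω)) (I : Set ℝ) (hI : MeasurableSet I) (hIne : I.Nonempty) :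
    ∃ τ ∈ I, ∑ ω, μ (E ω ∩ I) ≤ ((Finset.univ.filter fun ω => τ ∈ E ω).card : ℝ≥0∞) * μ I := by
  let g : ℝ → ℕ := fun τ => (Finset.univ.filter fun ω => τ ∈ E ω).card
  have hg : ∀ τ, g τ ≤ Fintype.card Ω := fun τ => Finset.card_le_univ _
  let P : ℕ → Prop := fun m => ∃ τ ∈ I, m ≤ g τ
  have hP0 : P 0 := by
    obtain ⟨τ, hτ⟩ := hIne
    exact ⟨τ, hτ, Nat.zero_le _⟩
  have hP : P (Nat.findGreatest P (Fintype.card Ω)) :=
    Nat.findGreatest_spec (P := P) (Nat.zero_le _) hP0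
  obtain ⟨τ, hτ, hτg⟩ := hP
  have hmax : ∀ τ' ∈ I, g τ' ≤ g τ := fun τ' hτ' =>
    (Nat.le_findGreatest (hg τ') ⟨τ', hτ', le_rfl⟩).trans hτg
  refine ⟨τ, hτ, ?_⟩
  have h1 : ∀ ω, μ (E ω ∩ I) = ∫⁻ x in I, (E ω).indicator 1 x ∂μ := by
    intro ω
    rw [lintegral_indicator_one (hE ω), Measure.restrict_apply (hE ω)]
  calc ∑ ω, μ (E ω ∩ I) = ∑ ω, ∫⁻ x in I, (E ω).indicator 1 x ∂μ :=
        Finset.sum_congr rfl fun ω _ => h1 ω
    _ = ∫⁻ x in I, ∑ ω, (E ω).indicator 1 x ∂μ := by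
        rw [lintegral_finsetSum]
        intro ω _
        exact measurable_one.indicator (hE ω)
    _ = ∫⁻ x in I, (g x : ℝ≥0∞) ∂μ := by
        congr 1
        funext x
        simp only [g, Finset.card_filter, Set.indicator_apply, Pi.one_apply]
        push_cast
        rfl
    _ ≤ ∫⁻ x in I, (g τ : ℝ≥0∞) ∂μ := by
        refine setLIntegral_mono' hI fun x hx => ?_
        exact_mod_cast hmax x hx
    _ = (g τ : ℝ≥0∞) * μ I := by rw [setLIntegral_const]

/-- Discretization at the scale `2 ^ (-k)`, with one height in each cell. -/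
theorem discrete2 (d k : ℕ) (W : Set (Fin d → ℝ))
    (hW : ∀ v ∈ W, ∀ i, 0 ≤ v i ∧ v i ≤ 1) (B : (Fin d → ℝ) → Fin d → ℝ) (μ : Measure ℝ)
    (E : (Fin d → ℝ) → Set ℝ) (hEm : ∀ v ∈ W, MeasurableSet (E v))
    (hE01 : ∀ v ∈ W, ∀ τ ∈ E v, 0 ≤ τ ∧ τ < 1) (M : ℝ)
    (hZ : ∀ τ : ℝ, ∃ Z : Finset (Fin d → ℝ), (Z.card : ℝ) ≤ M ∧ ∀ v ∈ W, τ ∈ E v →
      ∃ z ∈ Z, ∀ l, |B v l + τ * v l - z l| ≤ 2 * (1 / 2 : ℝ) ^ k)
    (a x1 x2 l : ℝ) (ha : 0 < a) (hx1 : 0 < x1) (hx2 : 0 < x2)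
    (hμ : ∀ j : ℕ, μ (Set.Ico ((j : ℝ) / (2 : ℝ) ^ k) (((j : ℝ) + 1) / (2 : ℝ) ^ k)) ≤
      ENNReal.ofReal a)
    (h1 : ENNReal.ofReal x1 ≤ volume W) (h2 : ∀ v ∈ W, ENNReal.ofReal x2 ≤ μ (E v))
    (hl : l = x2 / (2 * a * (2 : ℝ) ^ k)) :
    ∃ (Ω : Type) (_ : Fintype Ω) (_ : Nonempty Ω) (A D : Ω → Fin d → ℝ)
      (F : Ω → Finset (Fin (2 ^ k))), IsFam (2 ^ k) D ∧
      (∀ ω, l * ((2 ^ k : ℕ) : ℝ) ≤ ((F ω).card : ℝ)) ∧
      l * x1 * ((2 : ℝ) ^ k) ^ d ≤ (Fintype.card Ω : ℝ) ∧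
      1 ≤ (∑ j : Fin (2 ^ k),
        (((Finset.univ.filter fun ω => j ∈ F ω).image (cell A D j)).card : ℝ)) ∧
      (∑ j : Fin (2 ^ k),
        (((Finset.univ.filter fun ω => j ∈ F ω).image (cell A D j)).card : ℝ)) ≤
        (2 : ℝ) ^ k * (7 ^ d * M) := by
  obtain ⟨n, hn⟩ : ∃ n : ℕ, n = 2 ^ k := ⟨_, rfl⟩
  have hn1 : 1 ≤ n := by rw [hn]; exact Nat.one_le_two_pow
  have hn0 : (0 : ℝ) < n := by exact_mod_cast hn1
  have hhalf : (1 / 2 : ℝ) ^ k = 1 / (n : ℝ) := by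
    rw [hn]; push_cast; rw [div_pow, one_pow]
  have hnR : (n : ℝ) = (2 : ℝ) ^ k := by rw [hn]; push_cast; rfl
  rw [hhalf] at hZ
  rw [← hn, ← hnR]
  rw [← hnR] at hμ hl
  have hl0 : 0 < l := by rw [hl]; positivity
  -- the grid cubes
  let fl : (Fin d → ℝ) → Fin d → ℤ := fun v i => ⌊(n : ℝ) * v i⌋
  have hfin : (fl '' W).Finite := by
    apply Set.Finite.subset (Fintype.piFinset (fun _ : Fin d => Finset.Icc (0 : ℤ) n)).finite_toSet
    rintro g ⟨v, hv, rfl⟩
    rw [Finset.mem_coe, Fintype.mem_piFinset]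
    intro i
    rw [Finset.mem_Icc]
    have h3 := hW v hv i
    constructor
    · exact Int.floor_nonneg.2 (mul_nonneg hn0.le h3.1)
    · have h4 : (n : ℝ) * v i ≤ (n : ℤ) := by
        push_cast
        nlinarith
      exact Int.cast_le.1 ((Int.floor_le _).trans h4)
  obtain ⟨G, hG⟩ : ∃ G : Finset (Fin d → ℤ), G = hfin.toFinset := ⟨_, rfl⟩
  have hmemG : ∀ g, g ∈ G ↔ ∃ v ∈ W, fl v = g := by
    intro g
    rw [hG, Set.Finite.mem_toFinset]
    rfl
  have hex : ∀ ω : {g // g ∈ G}, ∃ v ∈ W, fl v = ω.1 := fun ω => (hmemG ω.1).1 ω.2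
  choose D hDW hDfl using hex
  have hfam : IsFam n D := ⟨hn1, fun ω i => (hW _ (hDW ω) i).1, fun ω i => (hW _ (hDW ω) i).2,
    fun ω ω' h => by
      apply Subtype.ext
      rw [← hDfl ω, ← hDfl ω']
      exact funext h⟩
  have hcardG : x1 * (n : ℝ) ^ d ≤ (Fintype.card {g // g ∈ G} : ℝ) := by
    have hsub : W ⊆ ⋃ g ∈ G, {v : Fin d → ℝ | ∀ i, ⌊(n : ℝ) * v i⌋ = g i} := by
      intro v hv
      rw [Set.mem_iUnion₂]
      exact ⟨fl v, (hmemG _).2 ⟨v, hv, rfl⟩, fun i => rfl⟩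
    have h3 : ENNReal.ofReal x1 ≤ ENNReal.ofReal ((G.card : ℝ) * (1 / (n : ℝ)) ^ d) := by
      calc ENNReal.ofReal x1 ≤ volume W := h1
        _ ≤ volume (⋃ g ∈ G, {v : Fin d → ℝ | ∀ i, ⌊(n : ℝ) * v i⌋ = g i}) := measure_mono hsub
        _ ≤ ∑ g ∈ G, volume {v : Fin d → ℝ | ∀ i, ⌊(n : ℝ) * v i⌋ = g i} :=
            measure_biUnion_finset_le _ _
        _ ≤ ∑ _g ∈ G, ENNReal.ofReal ((1 / (n : ℝ)) ^ d) :=
            Finset.sum_le_sum fun g _ => vol_cube d n hn1 g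
        _ = _ := by
            rw [Finset.sum_const, nsmul_eq_mul, ENNReal.ofReal_mul (by positivity),
              ENNReal.ofReal_natCast]
    have h4 := (ENNReal.ofReal_le_ofReal_iff (by positivity)).1 h3
    rw [Fintype.card_coe]
    calc x1 * (n : ℝ) ^ d ≤ ((G.card : ℝ) * (1 / (n : ℝ)) ^ d) * (n : ℝ) ^ d :=
          mul_le_mul_of_nonneg_right h4 (by positivity)
      _ = (G.card : ℝ) * ((1 / (n : ℝ)) * n) ^ d := by rw [mul_pow]; ring
      _ = G.card := by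
          rw [one_div, inv_mul_cancel₀ hn0.ne', one_pow, mul_one]
  -- the heights
  have hpick := fun j : Fin n => pick_height μ (fun ω : {g // g ∈ G} => E (D ω))
    (fun ω => hEm _ (hDW ω)) (Set.Ico (((j : ℕ) : ℝ) / n) ((((j : ℕ) : ℝ) + 1) / n))
    measurableSet_Ico ⟨((j : ℕ) : ℝ) / n, le_rfl, by
      apply div_lt_div_of_pos_right _ hn0
      linarith⟩
  choose τ hτI hτ using hpick
  let F : {g // g ∈ G} → Finset (Fin n) := fun ω => Finset.univ.filter fun j => τ j ∈ E (D ω)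
  have hdouble : ∑ j : Fin n, (Finset.univ.filter fun ω : {g // g ∈ G} => τ j ∈ E (D ω)).card =
      ∑ ω, (F ω).card := by
    simp only [F, Finset.card_filter]
    exact Finset.sum_comm
  have htot : (Fintype.card {g // g ∈ G} : ℝ) * x2 ≤ a * ∑ ω, ((F ω).card : ℝ) := by
    have h3 : ENNReal.ofReal ((Fintype.card {g // g ∈ G} : ℝ) * x2) ≤
        ENNReal.ofReal (a * ∑ ω, ((F ω).card : ℝ)) := by
      calc ENNReal.ofReal ((Fintype.card {g // g ∈ G} : ℝ) * x2)
          = ∑ _ω : {g // g ∈ G}, ENNReal.ofReal x2 := by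
            rw [Finset.sum_const, nsmul_eq_mul, ENNReal.ofReal_mul (by positivity),
              ENNReal.ofReal_natCast]
            rfl
        _ ≤ ∑ ω : {g // g ∈ G}, μ (E (D ω)) := Finset.sum_le_sum fun ω _ => h2 _ (hDW ω)
        _ ≤ ∑ ω : {g // g ∈ G}, ∑ j : Fin n, μ (E (D ω) ∩
            Set.Ico (((j : ℕ) : ℝ) / n) ((((j : ℕ) : ℝ) + 1) / n)) := by
            refine Finset.sum_le_sum fun ω _ => ?_
            refine (measure_mono ?_).trans (measure_biUnion_finset_le Finset.univ _)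
            intro x hx
            obtain ⟨hx0, hx1⟩ := hE01 _ (hDW ω) x hx
            have h4 : 0 ≤ (n : ℝ) * x := mul_nonneg hn0.le hx0
            have h5 : (n : ℝ) * x < n := by nlinarith
            have h6 : ⌊(n : ℝ) * x⌋₊ < n := (Nat.floor_lt h4).2 h5
            rw [Set.mem_iUnion₂]
            refine ⟨⟨⌊(n : ℝ) * x⌋₊, h6⟩, Finset.mem_univ _, hx, ?_, ?_⟩
            · rw [div_le_iff₀ hn0]
              have h7 : ((⌊(n : ℝ) * x⌋₊ : ℕ) : ℝ) ≤ n * x := Nat.floor_le h4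
              linarith
            · rw [lt_div_iff₀ hn0]
              have h7 : (n : ℝ) * x < ((⌊(n : ℝ) * x⌋₊ : ℕ) : ℝ) + 1 := Nat.lt_floor_add_one _
              linarith
        _ = ∑ j : Fin n, ∑ ω : {g // g ∈ G}, μ (E (D ω) ∩
            Set.Ico (((j : ℕ) : ℝ) / n) ((((j : ℕ) : ℝ) + 1) / n)) := Finset.sum_comm
        _ ≤ ∑ j : Fin n, ((Finset.univ.filter fun ω : {g // g ∈ G} => τ j ∈ E (D ω)).card : ℝ≥0∞) *
            ENNReal.ofReal a := Finset.sum_le_sum fun j _ =>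
              (hτ j).trans (mul_le_mul_right (hμ j) _)
        _ = ((∑ j : Fin n, (Finset.univ.filter fun ω : {g // g ∈ G} => τ j ∈ E (D ω)).card : ℕ) :
            ℝ≥0∞) * ENNReal.ofReal a := by
            rw [← Finset.sum_mul]
            push_cast
            rfl
        _ = ENNReal.ofReal (a * ∑ ω, ((F ω).card : ℝ)) := by
            rw [hdouble, ENNReal.ofReal_mul ha.le, mul_comm]
            congr 1
            rw [← Nat.cast_sum, ENNReal.ofReal_natCast]
    exact (ENNReal.ofReal_le_ofReal_iff (by positivity)).1 h3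
  -- the lines with many heights
  let Ω : Type := {ω : {g // g ∈ G} // l * n ≤ ((F ω).card : ℝ)}
  have hsplit : ∑ ω : {g // g ∈ G}, ((F ω).card : ℝ) ≤
      n * (Fintype.card Ω : ℝ) + (l * n) * (Fintype.card {g // g ∈ G} : ℝ) := by
    have h3 : ∀ ω : {g // g ∈ G}, ((F ω).card : ℝ) ≤
        n * (if l * n ≤ ((F ω).card : ℝ) then (1 : ℝ) else 0) + l * n := by
      intro ω
      split_ifs with h
      · have h4 : (F ω).card ≤ n := by
          have := Finset.card_le_univ (F ω)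
          rwa [Fintype.card_fin] at this
        have h5 : ((F ω).card : ℝ) ≤ n := by exact_mod_cast h4
        have : 0 < l * n := by positivity
        linarith
      · rw [mul_zero, zero_add]
        exact (not_le.1 h).le
    refine (Finset.sum_le_sum fun ω _ => h3 ω).trans (le_of_eq ?_)
    have hcΩ : Fintype.card Ω =
        (Finset.univ.filter fun ω : {g // g ∈ G} => l * n ≤ ((F ω).card : ℝ)).card :=
      Fintype.card_subtype _
    rw [Finset.sum_add_distrib, ← Finset.mul_sum, Finset.sum_const, nsmul_eq_mul, Finset.card_univ,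
      Finset.sum_boole, hcΩ]
    ring
  have hcardΩ : l * (Fintype.card {g // g ∈ G} : ℝ) ≤ (Fintype.card Ω : ℝ) := by
    have h3 : l * n * (2 * a) = x2 := by
      rw [hl]
      field_simp
    have h4 := mul_le_mul_of_nonneg_left hsplit ha.le
    have h5 : n * (l * (Fintype.card {g // g ∈ G} : ℝ)) * a ≤ n * (Fintype.card Ω : ℝ) * a := by
      rw [← h3] at htot
      nlinarith
    have h6 := le_of_mul_le_mul_right h5 ha
    exact le_of_mul_le_mul_left h6 hn0
  have hcardΩ' : l * x1 * (n : ℝ) ^ d ≤ (Fintype.card Ω : ℝ) := by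
    refine le_trans ?_ hcardΩ
    rw [mul_assoc]
    exact mul_le_mul_of_nonneg_left hcardG hl0.le
  have hne : Nonempty Ω := by
    rw [← Fintype.card_pos_iff]
    have : (0 : ℝ) < (Fintype.card Ω : ℝ) := lt_of_lt_of_le (by positivity) hcardΩ'
    exact_mod_cast this
  -- the cells
  let A : Ω → Fin d → ℝ := fun ω i => n * B (D ω.1) i
  have hcell : ∀ j : Fin n,
      ((((Finset.univ.filter fun ω : Ω => j ∈ F ω.1).image
        (cell A (fun ω => D ω.1) j)).card : ℝ)) ≤ 7 ^ d * M := by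
    intro j
    obtain ⟨Z, hZc, hZm⟩ := hZ (τ j)
    let Q : Finset (Fin d → ℤ) := Z.biUnion fun z =>
      Fintype.piFinset fun i => Finset.Icc (⌊(n : ℝ) * z i⌋ - 3) (⌊(n : ℝ) * z i⌋ + 3)
    have hQ : Q.card ≤ 7 ^ d * Z.card := by
      refine Finset.card_biUnion_le.trans ?_
      have h3 : ∀ z ∈ Z, (Fintype.piFinset fun i =>
          Finset.Icc (⌊(n : ℝ) * z i⌋ - 3) (⌊(n : ℝ) * z i⌋ + 3)).card = 7 ^ d := by
        intro z _
        rw [Fintype.card_piFinset]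
        have h4 : ∀ i : Fin d, (Finset.Icc (⌊(n : ℝ) * z i⌋ - 3) (⌊(n : ℝ) * z i⌋ + 3)).card = 7 := by
          intro i
          rw [Int.card_Icc]
          have : ⌊(n : ℝ) * z i⌋ + 3 + 1 - (⌊(n : ℝ) * z i⌋ - 3) = 7 := by ring
          rw [this]
          rfl
        rw [Finset.prod_congr rfl fun i _ => h4 i, Finset.prod_const, Finset.card_univ,
          Fintype.card_fin]
      rw [Finset.sum_congr rfl h3, Finset.sum_const, smul_eq_mul, mul_comm]
    have hsub : ((Finset.univ.filter fun ω : Ω => j ∈ F ω.1).image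
        (cell A (fun ω => D ω.1) j)) ⊆ Q := by
      intro c hc
      obtain ⟨ω, hω, rfl⟩ := Finset.mem_image.1 hc
      have hj : τ j ∈ E (D ω.1) := (Finset.mem_filter.1 (Finset.mem_filter.1 hω).2).2
      obtain ⟨z, hz, hzc⟩ := hZm _ (hDW ω.1) hj
      rw [Finset.mem_biUnion]
      refine ⟨z, hz, ?_⟩
      rw [Fintype.mem_piFinset]
      intro i
      have h3 := hzc i
      have h4 : |(n : ℝ) * (B (D ω.1) i + τ j * D ω.1 i) - n * z i| ≤ 2 := by
        rw [← mul_sub, abs_mul, abs_of_pos hn0]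
        calc (n : ℝ) * |B (D ω.1) i + τ j * D ω.1 i - z i| ≤ n * (2 * (1 / n)) :=
              mul_le_mul_of_nonneg_left h3 hn0.le
          _ = 2 := by field_simp
      have h5 := hτI j
      have h6 : ((j : ℕ) : ℝ) ≤ n * τ j := by
        have := h5.1
        rw [div_le_iff₀ hn0] at this
        linarith
      have h7 : (n : ℝ) * τ j < ((j : ℕ) : ℝ) + 1 := by
        have := h5.2
        rw [lt_div_iff₀ hn0] at this
        linarith
      have h8 := hW _ (hDW ω.1) i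
      have h9 : 0 ≤ (n * τ j - ((j : ℕ) : ℝ)) * D ω.1 i := mul_nonneg (by linarith) h8.1
      have h10 : (n * τ j - ((j : ℕ) : ℝ)) * D ω.1 i ≤ 1 := by
        have : (n * τ j - ((j : ℕ) : ℝ)) * D ω.1 i ≤ 1 * 1 :=
          mul_le_mul (by linarith) h8.2 h8.1 (by norm_num)
        linarith
      have h11 : (n : ℝ) * (B (D ω.1) i + τ j * D ω.1 i) =
          (n * B (D ω.1) i + ((j : ℕ) : ℝ) * D ω.1 i) + (n * τ j - ((j : ℕ) : ℝ)) * D ω.1 i := by
        ring
      rw [h11, abs_le] at h4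
      have h12 := Int.floor_le (A ω i + ((j : ℕ) : ℝ) * D ω.1 i)
      have h13 := Int.lt_floor_add_one (A ω i + ((j : ℕ) : ℝ) * D ω.1 i)
      have h14 : cell A (fun ω => D ω.1) j ω i = ⌊A ω i + ((j : ℕ) : ℝ) * D ω.1 i⌋ := rfl
      rw [← h14] at h12 h13
      have h15 : A ω i = n * B (D ω.1) i := rfl
      rw [h15] at h12 h13
      have h16 := Int.floor_le ((n : ℝ) * z i)
      have h17 := Int.lt_floor_add_one ((n : ℝ) * z i)
      rw [Finset.mem_Icc]
      constructor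
      · have h18 : (((⌊(n : ℝ) * z i⌋ - 4 : ℤ)) : ℝ) <
            ((cell A (fun ω => D ω.1) j ω i : ℤ) : ℝ) := by
          push_cast
          linarith [h4.1, h4.2]
        have h19 := Int.cast_lt.1 h18
        omega
      · have h18 : ((cell A (fun ω => D ω.1) j ω i : ℤ) : ℝ) <
            (((⌊(n : ℝ) * z i⌋ + 4 : ℤ)) : ℝ) := by
          push_cast
          linarith [h4.1, h4.2]
        have h19 := Int.cast_lt.1 h18
        omega
    calc ((((Finset.univ.filter fun ω : Ω => j ∈ F ω.1).image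
        (cell A (fun ω => D ω.1) j)).card : ℝ)) ≤ (Q.card : ℝ) := by
          exact_mod_cast Finset.card_le_card hsub
      _ ≤ 7 ^ d * (Z.card : ℝ) := by exact_mod_cast hQ
      _ ≤ 7 ^ d * M := mul_le_mul_of_nonneg_left hZc (by positivity)
  refine ⟨Ω, inferInstance, hne, A, fun ω => D ω.1, fun ω => F ω.1,
    ⟨hn1, fun ω i => hfam.lo ω.1 i, fun ω i => hfam.hi ω.1 i, fun ω ω' h =>
      Subtype.ext (hfam.inj ω.1 ω'.1 h)⟩, fun ω => ω.2, hcardΩ', ?_, ?_⟩
  · obtain ⟨ω0⟩ := hne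
    have h3 : 0 < ((F ω0.1).card : ℝ) := lt_of_lt_of_le (mul_pos hl0 hn0) ω0.2
    have h4 : 0 < (F ω0.1).card := by exact_mod_cast h3
    obtain ⟨j0, hj0⟩ := Finset.card_pos.1 h4
    have h5 : 0 < ((Finset.univ.filter fun ω : Ω => j0 ∈ F ω.1).image
        (cell A (fun ω => D ω.1) j0)).card := by
      rw [Finset.card_pos]
      exact ⟨_, Finset.mem_image_of_mem _ (Finset.mem_filter.2 ⟨Finset.mem_univ ω0, hj0⟩)⟩
    have h6 : ((Finset.univ.filter fun ω : Ω => j0 ∈ F ω.1).image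
        (cell A (fun ω => D ω.1) j0)).card ≤
        ∑ j : Fin n, ((Finset.univ.filter fun ω : Ω => j ∈ F ω.1).image
          (cell A (fun ω => D ω.1) j)).card :=
      Finset.single_le_sum (f := fun j : Fin n =>
        ((Finset.univ.filter fun ω : Ω => j ∈ F ω.1).image
          (cell A (fun ω => D ω.1) j)).card)
        (fun j _ => Nat.zero_le _) (Finset.mem_univ j0)
    have h7 := le_trans h5 h6
    exact_mod_cast h7
  · refine (Finset.sum_le_sum fun j _ => hcell j).trans (le_of_eq ?_)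
    rw [Finset.sum_const, nsmul_eq_mul, Finset.card_univ, Fintype.card_fin]

end Pool.Agent.X84.Sl
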