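import Pool.Agent.Y254.HK.Sets
import Pool.Agent.Y674.HK.Haus

/-!
# Slices of compact sets: finite covers, measurable choice of covers
-/

set_option autoImplicit false

open MeasureTheory Set Metric
open scoped ENNReal NNReal

namespace Pool.Agent.X84.Sl
open Pool.Agent.W605.HD

/-- the slice of `K` at the height `h` -/
def SL {d : ℕ} (K : Set (EuclideanSpace ℝ (Fin (d + 1)))) (h : ℝ) :
    Set (EuclideanSpace ℝ (Fin (d + 1))) := K ∩ {x | x 0 = h}

/-- the centres -/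
noncomputable def ctr (d : ℕ) : ℕ → EuclideanSpace ℝ (Fin (d + 1)) :=
  TopologicalSpace.denseSeq (EuclideanSpace ℝ (Fin (d + 1)))

/-- the union of a finite family of balls; `(i, k)` is the ball with centre number `i` and radius
`2 ^ (1 - k)` -/
def Un (d : ℕ) (F : Finset (ℕ × ℕ)) : Set (EuclideanSpace ℝ (Fin (d + 1))) :=
  {x | ∃ p ∈ F, dist x (ctr d p.1) < 2 * (1 / 2 : ℝ) ^ p.2}

theorem isOpen_Un (d : ℕ) (F : Finset (ℕ × ℕ)) : IsOpen (Un d F) := by
  have h : Un d F = ⋃ p ∈ F, ball (ctr d p.1) (2 * (1 / 2 : ℝ) ^ p.2) := by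
    ext x
    simp only [Un, Set.mem_setOf_eq, Set.mem_iUnion, mem_ball, exists_prop]
  rw [h]
  exact isOpen_biUnion fun p _ => isOpen_ball

/-- admissible families: few balls of each size, only small balls -/
def Adm (α : ℝ) (k0 : ℕ) (F : Finset (ℕ × ℕ)) : Prop :=
  (∀ p ∈ F, k0 ≤ p.2) ∧
    ∀ k : ℕ, ((F.filter fun p => p.2 = k).card : ℝ) ≤ (2 : ℝ) ^ (α * (k + 1))

theorem exists_family {d : ℕ} {K : Set (EuclideanSpace ℝ (Fin (d + 1)))} (hK : IsCompact K)
    {h : ℝ} {α : ℝ≥0} (hα : dimH (SL K h) < α) (k0 : ℕ) :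
    ∃ F : Finset (ℕ × ℕ), Adm α k0 F ∧ SL K h ⊆ Un d F := by
  classical
  obtain ⟨t, κ, ht1, ht2, ht3, ht4⟩ := cover (SL K h) α hα k0
  have hcl : IsClosed {x : EuclideanSpace ℝ (Fin (d + 1)) | x 0 = h} :=
    isClosed_eq (EuclideanSpace.proj (𝕜 := ℝ) (0 : Fin (d + 1))).continuous continuous_const
  have hSL : IsCompact (SL K h) := hK.inter_right hcl
  have hex : ∀ i, ∃ n : ℕ, ∀ y ∈ t i, dist y (ctr d n) < 2 * (1 / 2 : ℝ) ^ κ i := by
    intro i
    rcases (t i).eq_empty_or_nonempty with he | ⟨x, hx⟩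
    · exact ⟨0, fun y hy => by rw [he] at hy; exact absurd hy (Set.notMem_empty y)⟩
    · have hd := TopologicalSpace.denseRange_denseSeq (EuclideanSpace ℝ (Fin (d + 1)))
      obtain ⟨n, hn⟩ := hd.exists_dist_lt x (by positivity : (0 : ℝ) < (1 / 2 : ℝ) ^ κ i)
      refine ⟨n, fun y hy => ?_⟩
      have h1 := ht3 i y hy x hx
      have h2 : dist x (ctr d n) < (1 / 2 : ℝ) ^ κ i := hn
      have h3 := dist_triangle y x (ctr d n)
      linarith
  choose c hc using hex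
  obtain ⟨J, hJ⟩ := hSL.elim_finite_subcover (fun i => ball (ctr d (c i)) (2 * (1 / 2 : ℝ) ^ κ i))
    (fun i => isOpen_ball) (by
      intro x hx
      obtain ⟨i, hi⟩ := Set.mem_iUnion.1 (ht1 hx)
      exact Set.mem_iUnion.2 ⟨i, mem_ball.2 (hc i x hi)⟩)
  refine ⟨J.image fun i => (c i, κ i), ⟨?_, ?_⟩, ?_⟩
  · intro p hp
    obtain ⟨i, -, rfl⟩ := Finset.mem_image.1 hp
    exact ht2 i
  · intro k
    refine le_trans ?_ (ht4 k (J.filter fun i => κ i = k) (fun i hi => (Finset.mem_filter.1 hi).2))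
    have h1 : ((J.image fun i => (c i, κ i)).filter fun p => p.2 = k) ⊆
        (J.filter fun i => κ i = k).image fun i => (c i, κ i) := by
      intro p hp
      obtain ⟨hp1, hp2⟩ := Finset.mem_filter.1 hp
      obtain ⟨i, hi, rfl⟩ := Finset.mem_image.1 hp1
      exact Finset.mem_image.2 ⟨i, Finset.mem_filter.2 ⟨hi, hp2⟩, rfl⟩
    exact_mod_cast (Finset.card_le_card h1).trans Finset.card_image_le
  · intro x hx
    obtain ⟨i, hi, hxi⟩ := Set.mem_iUnion₂.1 (hJ hx)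
    exact ⟨(c i, κ i), Finset.mem_image.2 ⟨i, hi, rfl⟩, mem_ball.1 hxi⟩

/-- the heights at which a family covers the slice -/
def Hs {d : ℕ} (K : Set (EuclideanSpace ℝ (Fin (d + 1)))) (h0 : ℝ) (F : Finset (ℕ × ℕ)) : Set ℝ :=
  {τ | SL K (h0 + τ) ⊆ Un d F}

theorem isOpen_Hs {d : ℕ} {K : Set (EuclideanSpace ℝ (Fin (d + 1)))} (hK : IsCompact K) (h0 : ℝ)
    (F : Finset (ℕ × ℕ)) : IsOpen (Hs K h0 F) := by
  have h1 : IsCompact (K \ Un d F) := hK.diff (isOpen_Un d F)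
  have h2 : Continuous fun x : EuclideanSpace ℝ (Fin (d + 1)) => x 0 - h0 :=
    (EuclideanSpace.proj (𝕜 := ℝ) (0 : Fin (d + 1))).continuous.sub continuous_const
  have h3 := (h1.image h2).isClosed
  have h4 : Hs K h0 F = ((fun x : EuclideanSpace ℝ (Fin (d + 1)) => x 0 - h0) '' (K \ Un d F))ᶜ := by
    ext τ
    simp only [Hs, Set.mem_setOf_eq, Set.mem_compl_iff, Set.mem_image, not_exists, not_and]
    constructor
    · rintro h x ⟨hx1, hx2⟩ hx3
      exact hx2 (h ⟨hx1, by simp only [Set.mem_setOf_eq]; linarith⟩)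
    · rintro h x ⟨hx1, hx2⟩
      by_contra hx3
      simp only [Set.mem_setOf_eq] at hx2
      exact h x ⟨hx1, hx3⟩ (by linarith)
  rw [h4]
  exact h3.isOpen_compl

/-- A measurable choice of admissible covers: countably many disjoint Borel sets of heights
`G m ⊆ J`, and an admissible family for each, such that all heights with slices of small
dimension belong to some `G m`. -/
theorem choice {d : ℕ} {K : Set (EuclideanSpace ℝ (Fin (d + 1)))} (hK : IsCompact K) (h0 : ℝ)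
    (α : ℝ≥0) (k0 : ℕ) (J : Set ℝ) (hJ : MeasurableSet J) :
    ∃ (G : ℕ → Set ℝ) (f : ℕ → Finset (ℕ × ℕ)), (∀ m, MeasurableSet (G m)) ∧
      (∀ m m' : ℕ, ∀ τ, τ ∈ G m → τ ∈ G m' → m = m') ∧ (∀ m, G m ⊆ J) ∧
      (∀ m, (G m).Nonempty → Adm α k0 (f m)) ∧
      (∀ m, ∀ τ ∈ G m, SL K (h0 + τ) ⊆ Un d (f m)) ∧
      ∀ τ ∈ J, dimH (SL K (h0 + τ)) < α → ∃ m, τ ∈ G m := by
  classical
  obtain ⟨f, hf⟩ := exists_surjective_nat (Finset (ℕ × ℕ))
  let U : ℕ → Set ℝ := fun m => {τ | Adm α k0 (f m) ∧ τ ∈ Hs K h0 (f m)}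
  have hU : ∀ m, MeasurableSet (U m) := by
    intro m
    by_cases h : Adm α k0 (f m)
    · have : U m = Hs K h0 (f m) := by
        ext τ
        simp only [U, Set.mem_setOf_eq, h, true_and]
      rw [this]
      exact (isOpen_Hs hK h0 (f m)).measurableSet
    · have : U m = ∅ := by
        ext τ
        simp only [U, Set.mem_setOf_eq, h, false_and, Set.mem_empty_iff_false]
      rw [this]
      exact MeasurableSet.empty
  refine ⟨fun m => disjointed U m ∩ J, f, fun m => (MeasurableSet.disjointed hU m).inter hJ, ?_,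
    fun m => Set.inter_subset_right, ?_, ?_, ?_⟩
  · intro m m' τ h1 h2
    by_contra hne
    exact Set.disjoint_left.1 (disjoint_disjointed U hne) h1.1 h2.1
  · rintro m ⟨τ, hτ, -⟩
    exact (disjointed_subset U m hτ).1
  · rintro m τ ⟨hτ, -⟩
    exact (disjointed_subset U m hτ).2
  · intro τ hτ hd
    obtain ⟨F, hF1, hF2⟩ := exists_family hK hd k0
    obtain ⟨m, rfl⟩ := hf F
    have h1 : τ ∈ ⋃ m, U m := Set.mem_iUnion.2 ⟨m, hF1, hF2⟩
    rw [← iUnion_disjointed] at h1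
    obtain ⟨m', hm'⟩ := Set.mem_iUnion.1 h1
    exact ⟨m', hm', hτ⟩

end Pool.Agent.X84.Sl
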