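import Pool.Agent.X84.Sl.Core
import Pool.Agent.H813R2.CS.T_FRO

/-!
# Slices of compact sets with segments in many directions
-/

set_option autoImplicit false

open MeasureTheory Set Metric
open scoped ENNReal NNReal RealInnerProductSpace

namespace Pool.Agent.X84.Sl
open Pool.Agent.W605.HD Pool.Agent.Y254HK Pool.Agent.Y674.HK

/-- slopes of the segments of `K` over `[p, q]` -/
def VV (d : ℕ) (K : Set (EuclideanSpace ℝ (Fin (d + 1)))) (p q : ℝ) : Set (Fin d → ℝ) :=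
  {v | ∃ b : Fin d → ℝ, ∀ x ∈ Icc p q, pt d x (fun i => b i + x * v i) ∈ K}

/-- the set of measures of dimension at least `γ` -/
def Dim (γ : ℝ) (μ : Measure ℝ) : Prop :=
  ∃ A : ℝ, ∀ x r : ℝ, 0 < r → r ≤ 1 → μ (closedBall x r) ≤ ENNReal.ofReal (A * r ^ γ)

theorem Dim.translate {γ : ℝ} {μ : Measure ℝ} (h : Dim γ μ) (h0 : ℝ) :
    Dim γ (μ.map fun x => x - h0) := by
  obtain ⟨A, hA⟩ := h
  refine ⟨A, fun x r hr hr1 => ?_⟩
  have hm : Measurable fun x : ℝ => x - h0 := measurable_id.sub_const h0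
  rw [Measure.map_apply hm measurableSet_closedBall]
  refine le_trans (measure_mono ?_) (hA (x + h0) r hr hr1)
  intro z hz
  simp only [mem_preimage, mem_closedBall, Real.dist_eq] at hz ⊢
  have : z - (x + h0) = z - h0 - x := by ring
  rwa [this]

theorem SL_shr {d : ℕ} (g : Fin d → ℤ) (K : Set (EuclideanSpace ℝ (Fin (d + 1)))) (h : ℝ) :
    SL (shr d g '' K) h = shr d g '' SL K h := by
  ext x
  constructor
  · rintro ⟨⟨y, hy, rfl⟩, hx⟩
    exact ⟨y, ⟨hy, hx⟩, rfl⟩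
  · rintro ⟨y, ⟨hy, hy0⟩, rfl⟩
    exact ⟨⟨y, hy, rfl⟩, hy0⟩

/-- The slices over an interval which is crossed by segments with many slopes. -/
theorem vertical (d : ℕ) (c : ℝ) (hc : 0 ≤ c) (α : ℝ≥0) (hg0 : 0 < (d : ℝ) - c * α)
    (hD : DenseG d c) : ∃ γ : ℝ, 0 < γ ∧ γ < 1 ∧
    ∀ (K : Set (EuclideanSpace ℝ (Fin (d + 1)))), IsCompact K → ∀ p q : ℝ,
    volume (VV d K p q) ≠ 0 → ∀ μ : Measure ℝ, Dim γ μ →
    μ {h | (p ≤ h ∧ h < q) ∧ dimH (SL K h) < α} = 0 := by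
  obtain ⟨γ, hγ0, hγ1, H⟩ := core d c hc α hg0 hD
  refine ⟨γ, hγ0, hγ1, ?_⟩
  intro K hK p q hV μ hμ
  -- slopes in one cube
  let W : (Fin d → ℤ) → Set (Fin d → ℝ) := fun g => {w | w ∈ VV d K p q ∧ ∀ i, ⌊w i⌋ = g i}
  have hex : ∃ g, volume (W g) ≠ 0 := by
    by_contra hcon
    push Not at hcon
    refine hV (measure_mono_null ?_ (measure_iUnion_null hcon))
    intro w hw
    exact Set.mem_iUnion.2 ⟨fun i => ⌊w i⌋, hw, fun i => rfl⟩
  obtain ⟨g, hg⟩ := hex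
  have hexb : ∀ w : Fin d → ℝ, ∃ b : Fin d → ℝ, w ∈ VV d K p q →
      ∀ x ∈ Icc p q, pt d x (fun i => b i + x * w i) ∈ K := by
    intro w
    by_cases hw : w ∈ VV d K p q
    · obtain ⟨b, hb⟩ := hw
      exact ⟨b, fun _ => hb⟩
    · exact ⟨0, fun h => absurd h hw⟩
  choose b hb using hexb
  have hKs : IsCompact (shr d g '' K) :=
    hK.image (LinearMap.continuous_of_finiteDimensional (shr d g))
  -- heights in one unit interval
  have hm : ∀ m : ℕ, μ {h | ((p + m ≤ h ∧ h < p + m + 1) ∧ h < q) ∧ dimH (SL K h) < α} = 0 := by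
    intro m
    obtain ⟨A, hA⟩ := hμ.translate (p + m)
    have h1 := H (shr d g '' K) hKs (p + m) (min 1 (q - p - m)) (min_le_left _ _)
      ((fun v : Fin d → ℝ => v + fun i => (g i : ℝ)) ⁻¹' W g)
      (fun v i => b (v + fun i => (g i : ℝ)) i + (p + m) * v i) (by
        rintro v ⟨-, hv⟩ i
        have h1 : (g i : ℝ) ≤ v i + g i ∧ v i + g i < (g i : ℝ) + 1 := Int.floor_eq_iff.1 (hv i)
        constructor
        · linarith [h1.1]
        · linarith [h1.2]) (by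
        rw [measure_preimage_add_right]
        exact hg) (by
        rintro v ⟨hv, -⟩ τ hτ0 hτ1
        have h2 : τ < q - p - m := lt_of_lt_of_le hτ1 (min_le_right _ _)
        have h3 : (0 : ℝ) ≤ m := Nat.cast_nonneg m
        refine ⟨_, hb _ hv (p + m + τ) ⟨by linarith, by linarith⟩, ?_⟩
        ext l
        refine Fin.cases ?_ (fun i => ?_) l
        · rfl
        · change (b (v + fun i => (g i : ℝ)) i + (p + m + τ) * (v i + g i)) - (p + m + τ) * g i =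
            (b (v + fun i => (g i : ℝ)) i + (p + m) * v i) + τ * v i
          ring) _ A hA
    have h2 := Measure.le_map_apply (μ := μ) (f := fun x : ℝ => x - (p + m))
      (measurable_id.sub_const (p + (m : ℝ))).aemeasurable
      {τ | (0 ≤ τ ∧ τ < min 1 (q - p - m)) ∧ dimH (SL (shr d g '' K) (p + m + τ)) < α}
    rw [h1, nonpos_iff_eq_zero] at h2
    refine measure_mono_null ?_ h2
    rintro h ⟨⟨⟨h3, h4⟩, h5⟩, h6⟩
    refine ⟨⟨by linarith, lt_min (by linarith) (by linarith)⟩, ?_⟩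
    have h7 : p + m + (h - (p + m)) = h := by ring
    rw [h7, SL_shr]
    exact (dimH_shr d g _).trans_lt h6
  refine measure_mono_null ?_ (measure_iUnion_null hm)
  rintro h ⟨⟨h1, h2⟩, h3⟩
  refine Set.mem_iUnion.2 ⟨⌊h - p⌋₊, ⟨⟨?_, ?_⟩, h2⟩, h3⟩
  · have := Nat.floor_le (by linarith : 0 ≤ h - p)
    linarith
  · have := Nat.lt_floor_add_one (h - p)
    linarith

/-- directions with slopes in a null set, after a rotation -/
theorem sphere_null' (d : ℕ)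
    (R : EuclideanSpace ℝ (Fin (d + 1)) ≃ₗᵢ[ℝ] EuclideanSpace ℝ (Fin (d + 1)))
    (S : Set (Metric.sphere (0 : EuclideanSpace ℝ (Fin (d + 1))) 1))
    {N : Set (Fin d → ℝ)} (hN : MeasurableSet N) (h0 : volume N = 0)
    (hS : ∀ e ∈ S, R (e : EuclideanSpace ℝ (Fin (d + 1))) ∈ cone d N) :
    (volume : Measure (EuclideanSpace ℝ (Fin (d + 1)))).toSphere S = 0 := by
  obtain ⟨S', hS'⟩ : ∃ S' : Set (Metric.sphere (0 : EuclideanSpace ℝ (Fin (d + 1))) 1),
    S' = {e : Metric.sphere (0 : EuclideanSpace ℝ (Fin (d + 1))) 1 |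
      R (e : EuclideanSpace ℝ (Fin (d + 1))) ∈ cone d N} := ⟨_, rfl⟩
  have hm : MeasurableSet S' := by
    rw [hS']
    exact (R.continuous.measurable.comp measurable_subtype_coe) (measurable_cone d hN)
  refine measure_mono_null (t := S') (fun e he => by rw [hS']; exact hS e he) ?_
  rw [Measure.toSphere_apply' _ hm]
  refine mul_eq_zero_of_right _ (measure_mono_null (t := R ⁻¹' cone d N) ?_ ?_)
  · rintro x ⟨r, hr, y, ⟨e, he, rfl⟩, rfl⟩
    rw [hS'] at he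
    have hr0 : r ≠ 0 := hr.1.ne'
    have hR : R (r • (e : EuclideanSpace ℝ (Fin (d + 1)))) =
      r • R (e : EuclideanSpace ℝ (Fin (d + 1))) := map_smul R r _
    rcases he with he | he
    · left
      change (R (r • (e : EuclideanSpace ℝ (Fin (d + 1))))) 0 = 0
      rw [hR, PiLp.smul_apply, he, smul_zero]
    · right
      have : sl d (R (r • (e : EuclideanSpace ℝ (Fin (d + 1))))) =
          sl d (R (e : EuclideanSpace ℝ (Fin (d + 1)))) := by
        rw [hR]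
        funext i
        simp only [sl, PiLp.smul_apply, smul_eq_mul, mul_inv]
        field_simp
      change sl d (R (r • (e : EuclideanSpace ℝ (Fin (d + 1))))) ∈ N
      rw [this]
      exact he
  · rw [(R.measurePreserving).measure_preimage (measurable_cone d hN).nullMeasurableSet]
    exact cone_null d hN h0

/-- directions of the segments of `K` which cross the hyperplane `⟪e, x⟫ = h` -/
def Cross {n : ℕ} (K : Set (EuclideanSpace ℝ (Fin n))) (e : EuclideanSpace ℝ (Fin n)) (h : ℝ) :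
    Set (sphere (0 : EuclideanSpace ℝ (Fin n)) 1) :=
  {ω | ∃ (a b : EuclideanSpace ℝ (Fin n)) (r : ℝ), segment ℝ a b ⊆ K ∧ ⟪e, a⟫ < h ∧ h < ⟪e, b⟫ ∧
    b - a = r • (ω : EuclideanSpace ℝ (Fin n))}

/-- the slice of `K` by the hyperplane `⟪e, x⟫ = h` -/
def sli {n : ℕ} (K : Set (EuclideanSpace ℝ (Fin n))) (e : EuclideanSpace ℝ (Fin n)) (h : ℝ) :
    Set (EuclideanSpace ℝ (Fin n)) := {x | x ∈ K ∧ ⟪e, x⟫ = h}

/-- many crossing directions give many slopes over an interval -/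
theorem cross_slopes (d : ℕ)
    (R : EuclideanSpace ℝ (Fin (d + 1)) ≃ₗᵢ[ℝ] EuclideanSpace ℝ (Fin (d + 1)))
    (e : EuclideanSpace ℝ (Fin (d + 1))) (hR : ∀ x, ⟪e, x⟫ = (R x) 0)
    (K : Set (EuclideanSpace ℝ (Fin (d + 1)))) (h : ℝ)
    (hS : (volume : Measure (EuclideanSpace ℝ (Fin (d + 1)))).toSphere (Cross K e h) ≠ 0) :
    ∃ p q : ℚ, (p : ℝ) < h ∧ h < q ∧ volume (VV d (R '' K) p q) ≠ 0 := by
  by_contra hcon
  push Not at hcon
  have hnull : volume (⋃ z : ℚ × ℚ, {v | ((z.1 : ℝ) < h ∧ h < z.2) ∧ v ∈ VV d (R '' K) z.1 z.2}) = 0 := by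
    refine measure_iUnion_null fun z => ?_
    by_cases hz : (z.1 : ℝ) < h ∧ h < z.2
    · refine measure_mono_null ?_ (hcon z.1 z.2 hz.1 hz.2)
      exact fun v hv => hv.2
    · refine measure_mono_null (t := ∅) ?_ measure_empty
      exact fun v hv => absurd hv.1 hz
  apply hS
  refine sphere_null' d R _ (N := toMeasurable volume (⋃ z : ℚ × ℚ,
    {v | ((z.1 : ℝ) < h ∧ h < z.2) ∧ v ∈ VV d (R '' K) z.1 z.2})) (measurableSet_toMeasurable _ _)
    (by rw [measure_toMeasurable, hnull]) ?_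
  rintro ω ⟨a, b, r, hK, ha, hb, hr⟩
  right
  apply subset_toMeasurable
  rw [hR] at ha hb
  obtain ⟨p, hp1, hp2⟩ := exists_rat_btwn ha
  obtain ⟨q, hq1, hq2⟩ := exists_rat_btwn hb
  refine Set.mem_iUnion.2 ⟨(p, q), ⟨hp2, hq1⟩, ?_⟩
  have h1 : R b - R a = r • R (ω : EuclideanSpace ℝ (Fin (d + 1))) := by
    rw [← map_sub, hr, map_smul]
  have h2 : ∀ l, (R b) l - (R a) l = r * (R (ω : EuclideanSpace ℝ (Fin (d + 1)))) l := by
    intro l
    have := congrArg (fun x : EuclideanSpace ℝ (Fin (d + 1)) => x l) h1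
    simpa using this
  have h3 : 0 < (R b) 0 - (R a) 0 := by linarith
  have h4 : r * (R (ω : EuclideanSpace ℝ (Fin (d + 1)))) 0 ≠ 0 := by
    rw [← h2 0]
    exact h3.ne'
  have hr0 : r ≠ 0 := left_ne_zero_of_mul h4
  have hω0 : (R (ω : EuclideanSpace ℝ (Fin (d + 1)))) 0 ≠ 0 := right_ne_zero_of_mul h4
  refine ⟨fun i => (R a) (Fin.succ i) - (R a) 0 * sl d (R (ω : EuclideanSpace ℝ (Fin (d + 1)))) i,
    ?_⟩
  intro x hx
  obtain ⟨θ, hθ⟩ : ∃ θ : ℝ, θ = (x - (R a) 0) / ((R b) 0 - (R a) 0) := ⟨_, rfl⟩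
  have hx1 : (R a) 0 ≤ x := by linarith [hx.1]
  have hx2 : x ≤ (R b) 0 := by linarith [hx.2]
  have hθ0 : 0 ≤ θ := by rw [hθ]; exact div_nonneg (by linarith) h3.le
  have hθ1 : θ ≤ 1 := by rw [hθ, div_le_one h3]; linarith
  refine ⟨a + θ • (b - a), hK ?_, ?_⟩
  · rw [segment_eq_image']
    exact ⟨θ, ⟨hθ0, hθ1⟩, rfl⟩
  · have h5 : R (a + θ • (b - a)) = R a + θ • (R b - R a) := by
      rw [map_add, map_smul, map_sub]
    rw [h5]
    have h6 : θ * ((R b) 0 - (R a) 0) = x - (R a) 0 := by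
      rw [hθ]
      field_simp
    ext l
    refine Fin.cases ?_ (fun i => ?_) l
    · simp only [PiLp.add_apply, PiLp.smul_apply, PiLp.sub_apply, smul_eq_mul, pt_zero]
      linarith
    · simp only [PiLp.add_apply, PiLp.smul_apply, PiLp.sub_apply, smul_eq_mul, pt_succ, sl]
      have h7 : (R b) (Fin.succ i) - (R a) (Fin.succ i) = ((R b) 0 - (R a) 0) *
          ((R (ω : EuclideanSpace ℝ (Fin (d + 1)))) 0)⁻¹ *
            (R (ω : EuclideanSpace ℝ (Fin (d + 1)))) (Fin.succ i) := by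
        rw [h2, h2]
        field_simp
      rw [h7]
      have h8 : θ * (((R b) 0 - (R a) 0) * ((R (ω : EuclideanSpace ℝ (Fin (d + 1)))) 0)⁻¹ *
          (R (ω : EuclideanSpace ℝ (Fin (d + 1)))) (Fin.succ i)) =
          (θ * ((R b) 0 - (R a) 0)) * (((R (ω : EuclideanSpace ℝ (Fin (d + 1)))) 0)⁻¹ *
          (R (ω : EuclideanSpace ℝ (Fin (d + 1)))) (Fin.succ i)) := by ring
      rw [h8, h6]
      ring

theorem sli_image (d : ℕ)
    (R : EuclideanSpace ℝ (Fin (d + 1)) ≃ₗᵢ[ℝ] EuclideanSpace ℝ (Fin (d + 1)))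
    (e : EuclideanSpace ℝ (Fin (d + 1))) (hR : ∀ x, ⟪e, x⟫ = (R x) 0)
    (K : Set (EuclideanSpace ℝ (Fin (d + 1)))) (h : ℝ) :
    SL (R '' K) h = R '' sli K e h := by
  ext x
  constructor
  · rintro ⟨⟨y, hy, rfl⟩, hx⟩
    exact ⟨y, ⟨hy, by rw [hR]; exact hx⟩, rfl⟩
  · rintro ⟨y, ⟨hy, hy0⟩, rfl⟩
    exact ⟨⟨y, hy, rfl⟩, by rw [hR] at hy0; exact hy0⟩

/-- a rotation which moves `e` to the first axis -/
theorem exists_rot (d : ℕ) (e : EuclideanSpace ℝ (Fin (d + 1))) (he : ‖e‖ = 1) :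
    ∃ R : EuclideanSpace ℝ (Fin (d + 1)) ≃ₗᵢ[ℝ] EuclideanSpace ℝ (Fin (d + 1)),
      ∀ x, ⟪e, x⟫ = (R x) 0 := by
  have h1 : ‖e‖ = ‖(EuclideanSpace.single (0 : Fin (d + 1)) (1 : ℝ))‖ := by
    rw [he]; simp
  refine ⟨(ℝ ∙ (e - EuclideanSpace.single (0 : Fin (d + 1)) (1 : ℝ)))ᗮ.reflection, fun x => ?_⟩
  have h2 := Submodule.reflection_sub h1
  have h3 := ((ℝ ∙ (e - EuclideanSpace.single (0 : Fin (d + 1)) (1 : ℝ)))ᗮ.reflection).inner_map_map e x
  rw [h2, EuclideanSpace.inner_single_left] at h3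
  rw [← h3]
  simp

/-- The main theorem for one dimension `s`. -/
theorem main (d : ℕ) (hd : 1 ≤ d) (c : ℝ) (hc1 : 1 ≤ c) (hc : 0 ≤ gg d c) (s : ℝ)
    (hs : s < d / c) : ∃ γ : ℝ, 0 < γ ∧ γ < 1 ∧
    ∀ (K : Set (EuclideanSpace ℝ (Fin (d + 1)))), IsCompact K →
    ∀ e : EuclideanSpace ℝ (Fin (d + 1)), ‖e‖ = 1 → ∀ μ : Measure ℝ, Dim γ μ →
    μ {h | (volume : Measure (EuclideanSpace ℝ (Fin (d + 1)))).toSphere (Cross K e h) ≠ 0 ∧
      dimH (sli K e h) < ENNReal.ofReal s} = 0 := by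
  have hc0 : (0 : ℝ) < c := by linarith
  have hdR : (1 : ℝ) ≤ d := by exact_mod_cast hd
  obtain ⟨α, hα⟩ : ∃ α : ℝ≥0, α = s.toNNReal := ⟨_, rfl⟩
  have hα0 : (0 : ℝ) ≤ α := α.2
  have hα1 : c * (α : ℝ) < d := by
    have h1 : (α : ℝ) < d / c := by
      rw [hα, Real.coe_toNNReal']
      exact max_lt hs (by positivity)
    rw [lt_div_iff₀ hc0] at h1
    linarith
  obtain ⟨c', hc'⟩ : ∃ c' : ℝ, c' = c + (d - c * α) / (2 * (α + 1)) := ⟨_, rfl⟩
  have hcc' : c < c' := by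
    rw [hc']
    have : 0 < (d - c * (α : ℝ)) / (2 * (α + 1)) := div_pos (by linarith) (by linarith)
    linarith
  have hg0 : 0 < (d : ℝ) - c' * α := by
    have h1 : (d - c * (α : ℝ)) / (2 * (α + 1)) * α ≤ (d - c * α) / 2 := by
      rw [div_mul_eq_mul_div, div_le_div_iff₀ (by linarith) (by norm_num)]
      nlinarith
    rw [hc', add_mul]
    linarith
  obtain ⟨γ, hγ0, hγ1, H⟩ := vertical d c' (by linarith) α hg0 (dense_all hd hc1 hc c' hcc')
  refine ⟨γ, hγ0, hγ1, ?_⟩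
  intro K hK e he μ hμ
  obtain ⟨R, hR⟩ := exists_rot d e he
  have hRK : IsCompact (R '' K) := hK.image R.continuous
  have hnull : ∀ z : ℚ × ℚ, μ {h | volume (VV d (R '' K) z.1 z.2) ≠ 0 ∧
      (((z.1 : ℝ) ≤ h ∧ h < z.2) ∧ dimH (SL (R '' K) h) < α)} = 0 := by
    intro z
    by_cases hz : volume (VV d (R '' K) z.1 z.2) ≠ 0
    · exact measure_mono_null (fun h hh => hh.2) (H _ hRK z.1 z.2 hz μ hμ)
    · exact measure_mono_null (t := ∅) (fun h hh => absurd hh.1 hz) measure_empty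
  refine measure_mono_null ?_ (measure_iUnion_null hnull)
  rintro h ⟨h1, h2⟩
  obtain ⟨p, q, hp, hq, hpq⟩ := cross_slopes d R e hR K h h1
  refine Set.mem_iUnion.2 ⟨(p, q), hpq, ⟨hp.le, hq⟩, ?_⟩
  rw [sli_image d R e hR, R.isometry.dimH_image, hα]
  exact h2

/-- Lebesgue measure has dimension at least `γ` -/
theorem dim_volume {γ : ℝ} (hγ : γ ≤ 1) : Dim γ (volume : Measure ℝ) := by
  refine ⟨2, fun x r hr hr1 => ?_⟩
  rw [Real.volume_closedBall]
  apply ENNReal.ofReal_le_ofReal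
  have h1 : r ^ (1 : ℝ) ≤ r ^ γ := Real.rpow_le_rpow_of_exponent_ge hr hr1 hγ
  rw [Real.rpow_one] at h1
  linarith

/-- compact sets of exceptional heights have small dimension -/
theorem compact_exceptional {γ : ℝ} (hγ : 0 < γ) (C : Set ℝ) (hC : IsCompact C)
    (h : ∀ μ : Measure ℝ, Dim γ μ → μ C = 0) : dimH C ≤ ENNReal.ofReal γ := by
  by_contra hcon
  rw [not_le] at hcon
  obtain ⟨ν, hν, hν0, A, hA, hball⟩ := H813.CS.t_FRO C γ hC hγ hcon
  have h1 := h ν ⟨A, fun x r hr _ => hball x r hr⟩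
  have h2 : ν univ = 0 := by
    rw [← Set.union_compl_self C]
    exact measure_union_null h1 hν0
  rw [measure_univ] at h2
  exact one_ne_zero h2

/-- Kakeya sets have crossing segments in many directions over an interval of heights. -/
theorem kakeya_cross {n : ℕ} (K : Set (EuclideanSpace ℝ (Fin n)))
    (hK : ∀ ω : sphere (0 : EuclideanSpace ℝ (Fin n)) 1, ∃ a : EuclideanSpace ℝ (Fin n),
      ∀ t ∈ Icc (0 : ℝ) 1, a + t • (ω : EuclideanSpace ℝ (Fin n)) ∈ K)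
    (e : EuclideanSpace ℝ (Fin n)) (he : ‖e‖ = 1) :
    ∃ h0 : ℝ, ∀ h : ℝ, h0 < h → h < h0 + 1 / 4 →
      (volume : Measure (EuclideanSpace ℝ (Fin n))).toSphere (Cross K e h) ≠ 0 := by
  choose a ha using hK
  let S : Set (sphere (0 : EuclideanSpace ℝ (Fin n)) 1) :=
    {ω | 1 / 2 < ⟪e, (ω : EuclideanSpace ℝ (Fin n))⟫}
  have hSo : IsOpen S := isOpen_lt continuous_const
    (continuous_const.inner continuous_subtype_val)
  have hSne : S.Nonempty := by
    refine ⟨⟨e, by simp [he]⟩, ?_⟩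
    change 1 / 2 < ⟪e, e⟫
    rw [real_inner_self_eq_norm_sq, he]
    norm_num
  have hS0 : (volume : Measure (EuclideanSpace ℝ (Fin n))).toSphere S ≠ 0 :=
    (hSo.measure_pos _ hSne).ne'
  let T : ℤ → Set (sphere (0 : EuclideanSpace ℝ (Fin n)) 1) := fun q =>
    {ω | ω ∈ S ∧ ⌈4 * ⟪e, a ω⟫⌉ = q}
  have hex : ∃ q, (volume : Measure (EuclideanSpace ℝ (Fin n))).toSphere (T q) ≠ 0 := by
    by_contra hcon
    push Not at hcon
    refine hS0 (measure_mono_null ?_ (measure_iUnion_null hcon))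
    intro ω hω
    exact Set.mem_iUnion.2 ⟨_, hω, rfl⟩
  obtain ⟨q, hq⟩ := hex
  refine ⟨q / 4, fun h h1 h2 h3 => hq (measure_mono_null ?_ h3)⟩
  rintro ω ⟨hω, hωq⟩
  have h4 := Int.le_ceil (4 * ⟪e, a ω⟫)
  have h5 := Int.ceil_lt_add_one (4 * ⟪e, a ω⟫)
  rw [hωq] at h4 h5
  have h6 : 1 / 2 < ⟪e, (ω : EuclideanSpace ℝ (Fin n))⟫ := hω
  refine ⟨a ω, a ω + (ω : EuclideanSpace ℝ (Fin n)), 1, ?_, by linarith, ?_, by simp⟩
  · rw [segment_eq_image']
    rintro _ ⟨θ, hθ, rfl⟩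
    have : a ω + θ • (a ω + (ω : EuclideanSpace ℝ (Fin n)) - a ω) =
        a ω + θ • (ω : EuclideanSpace ℝ (Fin n)) := by
      rw [add_sub_cancel_left]
    simp only [this]
    exact ha ω θ hθ
  · rw [inner_add_right]
    linarith

end Pool.Agent.X84.Sl
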